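import Pool.Agent.T9h40.Rank

/-!
# Kummer surfaces of products of elliptic curves: in every fibre the points in the class `c_X` form a
# subgroup of infinite rank

`F` is an algebraic closure of `ℚ` and `E : y² = f(x)`, `E' : y² = g(x)` are elliptic curves over `F`
(`f`, `g` are monic separable cubic polynomials; every elliptic curve over `F` has such an equation).
The Kummer surface `X` of `E × E'` is the K3 surface `w² = f(x) g(x')`; the point of `X` of the pair
`P = (x, y)`, `Q = (x', y')` is `(x, x', y y')`. The projections `(x, x', w) ↦ x` and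
`(x, x', w) ↦ x'` are fibrations of `X`, with the smooth fibres `{P} × E'` (for `2 P ≠ 0`) and
`E × {Q}` (for `2 Q ≠ 0`).

The Bloch–Beilinson conjecture says that all points of `X` are rationally equivalent, so that all cycles
`[(x, x', w)] - [(x, x', -w)]` are rationally equivalent to zero. We call a point *central* if a positive
multiple of this cycle is in a certain group `Rat` of cycles which are rationally equivalent to zero. By
the theorems of Roitman (no torsion) and of Beauville and Voisin the central points are in the class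
`c_X`.

**Theorem.**
1. A positive multiple of the difference of two central points is in `Rat`.
2. For *every* point `P` of `E` the points `Q` of `E'` such that the point `(P, Q)` is central are a
   subgroup of `E'(F)` of infinite rank.
3. For *every* point `Q` of `E'` the points `P` of `E` such that the point `(P, Q)` is central are a
   subgroup of `E(F)` of infinite rank.

So in every smooth fibre of the two fibrations of `X` the points in the class `c_X` are a subgroup of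
infinite rank (the group of all points of the fibre, if the conjecture is true).

The cycles in `Rat` are rationally equivalent to zero on `X`; `Rat` is generated by the divisors of the
functions `(w - l) / (w + l)`, `l` a linear polynomial, on the fibres, by the differences of two points on
a rational curve, and by the differences of two fibres of `(x, x', w) ↦ (x, x')`.

Idea of the proof. Modulo `Rat` the cycle of `(P, Q)` is biadditive. There is a Möbius map `m` which maps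
the roots of `f` to the roots of `g` but not `∞` to `∞`; the points of `X` with `x' = m(x)` are on a
rational curve. So for `k ≥ 1` the points `Q_k` with `x(Q_k) = m(x(k P))` satisfy
`k (P, Q_k) = (k P, Q_k) = 0`. The pairs `(k P, Q_k)` come from points of a curve `C` of genus two
which covers `E` and `E'`. We show, in the style of Mumford's gap principle, an inequality
`h(P + P') + h(Q + Q') ≤ 3 h(P) + 3 h(P') + O(1)` for the points of `C` over a number field, by cancelling
a common factor in the coordinates of `(P + P', Q + Q')`. It implies that the `Q_k`, if they are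
defined over one number field `L`, are almost orthogonal for the canonical height, so that they have
infinite rank. If all these groups had finite rank, we could take `L` such that a multiple of each `Q_k`
is defined over `L`; then `Q_k` is defined over `L` or is torsion (it is its conjugate up to sign), and it
is not torsion for large `k` since the height of its `x`-coordinate is large.
-/

set_option autoImplicit false

open WeierstrassCurve Polynomial

namespace Pool.Agent.Results.MP_9207e0_ag.InfiniteRankFibres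

section definitions

variable {F : Type} [Field F]

/-- The cubic polynomial of the curve `E : y² = x³ + a₂ x² + a₄ x + a₆`. -/
def cubic (E : WeierstrassCurve F) (x : F) : F := x ^ 3 + E.a₂ * x ^ 2 + E.a₄ * x + E.a₆

/-- The point `p = (x, x', w)` lies on the surface `w² = f(x) g(x')`. -/
def OnSurface (E E' : WeierstrassCurve F) (p : F × F × F) : Prop :=
  p.2.2 ^ 2 = cubic E p.1 * cubic E' p.2.1

/-- The zero-cycle `[(x, x', w)]`. -/
noncomputable def pt (x x' w : F) : (F × F × F) →₀ ℤ := Finsupp.single (x, x', w) 1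

/-- The zero-cycle `[(x, x', w)] - [(x, x', -w)]`. -/
noncomputable def dl (x x' w : F) : (F × F × F) →₀ ℤ := pt x x' w - pt x x' (-w)

/-- The divisors of the functions `(w - α t - β) / (w + α t + β)` on the fibres
`w² = f(x) g(t)` of the first projection. -/
def Lines (E E' : WeierstrassCurve F) : Set ((F × F × F) →₀ ℤ) :=
  {z | ∃ x α β s₁ s₂ s₃ : F,
    (∀ t, cubic E x * cubic E' t - (α * t + β) ^ 2 =
      cubic E x * ((t - s₁) * (t - s₂) * (t - s₃))) ∧
    z = dl x s₁ (α * s₁ + β) + dl x s₂ (α * s₂ + β) + dl x s₃ (α * s₃ + β)}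

/-- The divisors of the functions `(w - α t - β) / (w + α t + β)` on the fibres
`w² = f(t) g(x')` of the second projection. -/
def Lines' (E E' : WeierstrassCurve F) : Set ((F × F × F) →₀ ℤ) :=
  {z | ∃ x' α β s₁ s₂ s₃ : F,
    (∀ t, cubic E t * cubic E' x' - (α * t + β) ^ 2 =
      cubic E' x' * ((t - s₁) * (t - s₂) * (t - s₃))) ∧
    z = dl s₁ x' (α * s₁ + β) + dl s₂ x' (α * s₂ + β) + dl s₃ x' (α * s₃ + β)}

/-- The differences of two points of the surface on a rational curve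
`t ↦ (p(t) / d(t), p'(t) / d(t), q(t) / d(t))`. -/
def Curves (E E' : WeierstrassCurve F) : Set ((F × F × F) →₀ ℤ) :=
  {z | ∃ p p' q d : F[X],
    (∀ t, d.eval t ≠ 0 →
      OnSurface E E' (p.eval t / d.eval t, p'.eval t / d.eval t, q.eval t / d.eval t)) ∧
    ∃ t u, d.eval t ≠ 0 ∧ d.eval u ≠ 0 ∧
      z = pt (p.eval t / d.eval t) (p'.eval t / d.eval t) (q.eval t / d.eval t) -
        pt (p.eval u / d.eval u) (p'.eval u / d.eval u) (q.eval u / d.eval u)}

/-- The differences of two fibres of `(x, x', w) ↦ (x, x')`. -/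
def Fibres (E E' : WeierstrassCurve F) : Set ((F × F × F) →₀ ℤ) :=
  {z | ∃ x x' w u u' v : F, OnSurface E E' (x, x', w) ∧ OnSurface E E' (u, u', v) ∧
    z = pt x x' w + pt x x' (-w) - pt u u' v - pt u u' (-v)}

/-- A group of zero-cycles which are rationally equivalent to zero on `w² = f(x) g(x')`. -/
noncomputable def Rat (E E' : WeierstrassCurve F) : AddSubgroup ((F × F × F) →₀ ℤ) :=
  AddSubgroup.closure (Lines E E' ∪ Lines' E E' ∪ Curves E E' ∪ Fibres E E')

/-- The point `p` of the surface is central: a positive multiple of `[(x, x', w)] - [(x, x', -w)]` is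
in `Rat`. -/
def Central (E E' : WeierstrassCurve F) (p : F × F × F) : Prop :=
  OnSurface E E' p ∧ ∃ N : ℕ, N ≠ 0 ∧ N • dl p.1 p.2.1 p.2.2 ∈ Rat E E'

/-- The point `(P, Q)` of the Kummer surface is central. (If `P = 0` or `Q = 0` then it lies on one of
the smooth rational curves `x = ∞`, `x' = ∞` of the Kummer surface.) -/
def CentralPair {E E' : WeierstrassCurve F} : E.toAffine.Point → E'.toAffine.Point → Prop
  | .some x y _, .some x' y' _ => Central E E' (x, x', y * y')
  | _, _ => True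

end definitions

open Pool.Agent.H437R2.Man.MW Pool.Agent.T9h40.K3

section proofs

variable {F : Type} [Field F]

lemma cubic_crv (e1 e2 e3 x : F) : cubic (crv e1 e2 e3) x = (x + e1) * (x + e2) * (x + e3) := by
  simp only [cubic, crv]
  ring

lemma dl_neg (x x' w : F) : dl x x' (-w) = -dl x x' w := by
  unfold dl
  rw [neg_neg, neg_sub]

lemma dl_zero (x x' : F) : dl x x' 0 = 0 := by
  unfold dl
  rw [neg_zero, sub_self]

/-- the cycle of a pair -/
noncomputable def cyc {E E' : WeierstrassCurve F} :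
    E.toAffine.Point → E'.toAffine.Point → ((F × F × F) →₀ ℤ)
  | .some x y _, .some x' y' _ => dl x x' (y * y')
  | _, _ => 0

lemma cyc_zero_left {E E' : WeierstrassCurve F} (Q : E'.toAffine.Point) :
    cyc (0 : E.toAffine.Point) Q = 0 := rfl

lemma cyc_zero_right {E E' : WeierstrassCurve F} (P : E.toAffine.Point) :
    cyc P (0 : E'.toAffine.Point) = 0 := by
  match P with
  | .zero => rfl
  | .some x y h => rfl

lemma cyc_some {E E' : WeierstrassCurve F} {x y x' y' : F} (h : E.toAffine.Nonsingular x y)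
    (h' : E'.toAffine.Nonsingular x' y') :
    cyc (.some x y h : E.toAffine.Point) (.some x' y' h' : E'.toAffine.Point) = dl x x' (y * y') := rfl

lemma central_iff {a0 a1 a2 b0 b1 b2 : F} (P : Pt a0 a1 a2) (Q : Pt b0 b1 b2) :
    CentralPair P Q ↔ ∃ N : ℕ, N ≠ 0 ∧ N • cyc P Q ∈ Rat (crv a0 a1 a2) (crv b0 b1 b2) := by
  match P, Q with
  | .zero, Q =>
    refine ⟨fun _ => ⟨1, one_ne_zero, ?_⟩, fun _ => ?_⟩
    · change 1 • (0 : (F × F × F) →₀ ℤ) ∈ _
      rw [smul_zero]
      exact zero_mem _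
    · simp only [CentralPair]
  | .some x y h, .zero =>
    refine ⟨fun _ => ⟨1, one_ne_zero, ?_⟩, fun _ => ?_⟩
    · change 1 • (0 : (F × F × F) →₀ ℤ) ∈ _
      rw [smul_zero]
      exact zero_mem _
    · simp only [CentralPair]
  | .some x y h, .some x' y' h' =>
    refine ⟨fun hc => hc.2, fun hc => ⟨?_, hc⟩⟩
    change (y * y') ^ 2 = cubic (crv a0 a1 a2) x * cubic (crv b0 b1 b2) x'
    rw [cubic_crv, cubic_crv, ← crv_eqn.mp h.1, ← crv_eqn.mp h'.1]
    ring

section dec

variable [DecidableEq F]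

/-- the line through two points. -/
lemma line_through {b0 b1 b2 x1 y1 x2 y2 : F} (h1 : (crv b0 b1 b2).toAffine.Nonsingular x1 y1)
    (h2 : (crv b0 b1 b2).toAffine.Nonsingular x2 y2)
    (hxy : ¬(x1 = x2 ∧ y1 = (crv b0 b1 b2).toAffine.negY x2 y2)) :
    ∃ l x3 y3 : F, ∃ h3 : (crv b0 b1 b2).toAffine.Nonsingular x3 y3,
      (Affine.Point.some x1 y1 h1 + Affine.Point.some x2 y2 h2 : Pt b0 b1 b2) = .some x3 y3 h3 ∧
      (∀ t, (t + b0) * (t + b1) * (t + b2) - (l * (t - x1) + y1) ^ 2 =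
        (t - x1) * (t - x2) * (t - x3)) ∧
      l * (x2 - x1) + y1 = y2 ∧ y3 = -(l * (x3 - x1) + y1) := by
  have hp := Affine.addPolynomial_slope h1.1 h2.1 hxy
  set l := (crv b0 b1 b2).toAffine.slope x1 x2 y1 y2 with hl
  refine ⟨l, (crv b0 b1 b2).toAffine.addX x1 x2 l, (crv b0 b1 b2).toAffine.addY x1 x2 y1 l,
    Affine.nonsingular_add h1 h2 hxy, Affine.Point.add_some hxy, ?_, ?_, ?_⟩
  · intro t
    rw [Affine.addPolynomial_eq] at hp
    generalize (crv b0 b1 b2).toAffine.addX x1 x2 l = x3 at hp ⊢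
    have h3 := congrArg (Polynomial.eval t) hp
    simp only [Cubic.toPoly, eval_neg, eval_add, eval_mul, eval_C, eval_pow, eval_X, eval_sub] at h3
    simp only [crv] at h3 ⊢
    linear_combination (-1 : F) * h3
  · by_cases hx : x1 = x2
    · have hy : y1 ≠ (crv b0 b1 b2).toAffine.negY x2 y2 := fun h => hxy ⟨hx, h⟩
      have := Affine.Y_eq_of_Y_ne h1.1 h2.1 hx hy
      rw [hx, this]
      ring
    · rw [hl, Affine.slope_of_X_ne hx]
      have : x1 - x2 ≠ 0 := sub_ne_zero.mpr hx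
      field_simp
      ring
  · rw [Affine.addY, Affine.negY, Affine.negAddY]
    generalize (crv b0 b1 b2).toAffine.addX x1 x2 l = x3
    simp only [crv]
    ring

lemma cyc_add_right {a0 a1 a2 b0 b1 b2 : F} (P : Pt a0 a1 a2) (Q1 Q2 : Pt b0 b1 b2) :
    cyc P Q1 + cyc P Q2 - cyc P (Q1 + Q2) ∈ Rat (crv a0 a1 a2) (crv b0 b1 b2) := by
  match P, Q1, Q2 with
  | .zero, Q1, Q2 =>
    change (0 : (F × F × F) →₀ ℤ) + 0 - 0 ∈ _
    simp
  | .some x y h, .zero, Q2 =>
    change cyc _ (0 : Pt b0 b1 b2) + cyc _ Q2 - cyc _ (0 + Q2) ∈ _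
    rw [zero_add, cyc_zero_right, zero_add, sub_self]
    exact zero_mem _
  | .some x y h, .some x1 y1 h1, .zero =>
    change cyc _ (.some x1 y1 h1) + cyc _ (0 : Pt b0 b1 b2) - cyc _ (.some x1 y1 h1 + 0) ∈ _
    rw [add_zero, cyc_zero_right, add_zero, sub_self]
    exact zero_mem _
  | .some x y h, .some x1 y1 h1, .some x2 y2 h2 =>
    by_cases hxy : x1 = x2 ∧ y1 = (crv b0 b1 b2).toAffine.negY x2 y2
    · rw [Affine.Point.add_of_Y_eq hxy.1 hxy.2, cyc_zero_right, sub_zero, cyc_some, cyc_some]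
      obtain ⟨rfl, rfl⟩ := hxy
      have e1 : y * (crv b0 b1 b2).toAffine.negY x1 y2 = -(y * y2) := by
        simp only [Affine.negY, crv]
        ring
      rw [e1, dl_neg, neg_add_cancel]
      exact zero_mem _
    · obtain ⟨l, x3, y3, h3, e1, e2, e3, e4⟩ := line_through h1 h2 hxy
      rw [e1, cyc_some, cyc_some, cyc_some]
      have hz : dl x x1 (y * y1) + dl x x2 (y * y2) - dl x x3 (y * y3) =
          dl x x1 (y * l * x1 + y * (y1 - l * x1)) + dl x x2 (y * l * x2 + y * (y1 - l * x1)) +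
            dl x x3 (y * l * x3 + y * (y1 - l * x1)) := by
        have f1 : y * l * x1 + y * (y1 - l * x1) = y * y1 := by ring
        have f2 : y * l * x2 + y * (y1 - l * x1) = y * y2 := by rw [← e3]; ring
        have f3 : y * l * x3 + y * (y1 - l * x1) = -(y * y3) := by rw [e4]; ring
        rw [f1, f2, f3, dl_neg, sub_eq_add_neg]
      rw [hz]
      apply AddSubgroup.subset_closure
      refine Or.inl (Or.inl (Or.inl ⟨x, y * l, y * (y1 - l * x1), x1, x2, x3, fun t => ?_, rfl⟩))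
      rw [cubic_crv, cubic_crv, ← crv_eqn.mp h.1]
      linear_combination y ^ 2 * e2 t

lemma cyc_add_left {a0 a1 a2 b0 b1 b2 : F} (P1 P2 : Pt a0 a1 a2) (Q : Pt b0 b1 b2) :
    cyc P1 Q + cyc P2 Q - cyc (P1 + P2) Q ∈ Rat (crv a0 a1 a2) (crv b0 b1 b2) := by
  match P1, P2, Q with
  | P1, P2, .zero =>
    change cyc P1 (0 : Pt b0 b1 b2) + cyc P2 (0 : Pt b0 b1 b2) - cyc (P1 + P2) (0 : Pt b0 b1 b2) ∈ _
    rw [cyc_zero_right, cyc_zero_right, cyc_zero_right]
    simp
  | .zero, P2, .some x y h =>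
    change cyc (0 : Pt a0 a1 a2) _ + cyc P2 _ - cyc (0 + P2) _ ∈ _
    rw [zero_add, cyc_zero_left, zero_add, sub_self]
    exact zero_mem _
  | .some x1 y1 h1, .zero, .some x y h =>
    change cyc (.some x1 y1 h1) _ + cyc (0 : Pt a0 a1 a2) _ - cyc (.some x1 y1 h1 + 0) _ ∈ _
    rw [add_zero, cyc_zero_left, add_zero, sub_self]
    exact zero_mem _
  | .some x1 y1 h1, .some x2 y2 h2, .some x y h =>
    by_cases hxy : x1 = x2 ∧ y1 = (crv a0 a1 a2).toAffine.negY x2 y2
    · rw [Affine.Point.add_of_Y_eq hxy.1 hxy.2, cyc_zero_left, sub_zero, cyc_some, cyc_some]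
      obtain ⟨rfl, rfl⟩ := hxy
      have e1 : (crv a0 a1 a2).toAffine.negY x1 y2 * y = -(y2 * y) := by
        simp only [Affine.negY, crv]
        ring
      rw [e1, dl_neg, neg_add_cancel]
      exact zero_mem _
    · obtain ⟨l, x3, y3, h3, e1, e2, e3, e4⟩ := line_through h1 h2 hxy
      rw [e1, cyc_some, cyc_some, cyc_some]
      have hz : dl x1 x (y1 * y) + dl x2 x (y2 * y) - dl x3 x (y3 * y) =
          dl x1 x (y * l * x1 + y * (y1 - l * x1)) + dl x2 x (y * l * x2 + y * (y1 - l * x1)) +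
            dl x3 x (y * l * x3 + y * (y1 - l * x1)) := by
        have f1 : y * l * x1 + y * (y1 - l * x1) = y1 * y := by ring
        have f2 : y * l * x2 + y * (y1 - l * x1) = y2 * y := by rw [← e3]; ring
        have f3 : y * l * x3 + y * (y1 - l * x1) = -(y3 * y) := by rw [e4]; ring
        rw [f1, f2, f3, dl_neg, sub_eq_add_neg]
      rw [hz]
      apply AddSubgroup.subset_closure
      refine Or.inl (Or.inl (Or.inr ⟨x, y * l, y * (y1 - l * x1), x1, x2, x3, fun t => ?_, rfl⟩))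
      rw [cubic_crv, cubic_crv, ← crv_eqn.mp h.1]
      linear_combination y ^ 2 * e2 t

/-- the cycle of a pair modulo `Rat`, as a biadditive map. -/
noncomputable def phi (a0 a1 a2 b0 b1 b2 : F) :
    Pt a0 a1 a2 →+ Pt b0 b1 b2 →+
      ((F × F × F) →₀ ℤ) ⧸ Rat (crv a0 a1 a2) (crv b0 b1 b2) :=
  AddMonoidHom.mk' (fun P => AddMonoidHom.mk' (fun Q => QuotientAddGroup.mk (cyc P Q))
    (fun Q1 Q2 => by
      rw [← QuotientAddGroup.mk_add]
      exact ((QuotientAddGroup.eq_iff_sub_mem).mpr (cyc_add_right P Q1 Q2)).symm))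
    (fun P1 P2 => by
      ext Q
      change (QuotientAddGroup.mk (cyc (P1 + P2) Q) : ((F × F × F) →₀ ℤ) ⧸ _) =
        QuotientAddGroup.mk (cyc P1 Q) + QuotientAddGroup.mk (cyc P2 Q)
      rw [← QuotientAddGroup.mk_add]
      exact ((QuotientAddGroup.eq_iff_sub_mem).mpr (cyc_add_left P1 P2 Q)).symm)

lemma phi_apply {a0 a1 a2 b0 b1 b2 : F} (P : Pt a0 a1 a2) (Q : Pt b0 b1 b2) :
    phi a0 a1 a2 b0 b1 b2 P Q = QuotientAddGroup.mk (cyc P Q) := rfl

lemma central_iff' {a0 a1 a2 b0 b1 b2 : F} (P : Pt a0 a1 a2) (Q : Pt b0 b1 b2) :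
    CentralPair P Q ↔ ∃ N : ℕ, N ≠ 0 ∧ N • phi a0 a1 a2 b0 b1 b2 P Q = 0 := by
  rw [central_iff]
  refine exists_congr fun N => and_congr_right fun _ => ?_
  rw [phi_apply, ← QuotientAddGroup.mk_nsmul, QuotientAddGroup.eq_zero_iff]

/-- the torsion kernel of a homomorphism -/
def tker {G A : Type} [AddCommGroup G] [AddCommGroup A] (f : G →+ A) : AddSubgroup G where
  carrier := {Q | ∃ N : ℕ, N ≠ 0 ∧ N • f Q = 0}
  zero_mem' := ⟨1, one_ne_zero, by rw [map_zero, smul_zero]⟩
  add_mem' := by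
    rintro Q Q' ⟨N, hN, h⟩ ⟨N', hN', h'⟩
    refine ⟨N * N', mul_ne_zero hN hN', ?_⟩
    rw [map_add, smul_add, mul_smul N N' (f Q'), h', smul_zero, add_zero, mul_comm, mul_smul, h,
      smul_zero]
  neg_mem' := by
    rintro Q ⟨N, hN, h⟩
    exact ⟨N, hN, by rw [map_neg, smul_neg, h, neg_zero]⟩

end dec

/-- points on the rational curve over the graph of the Möbius map. -/
lemma dl_mem_rat [IsAlgClosed F] {a0 a1 a2 b0 b1 b2 α β γ x x' w : F}
    (hm : Mob a0 a1 a2 b0 b1 b2 α β γ) (hx : (x - γ) * (x' - α) = β)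
    (hw : w ^ 2 = (x + a0) * (x + a1) * (x + a2) * ((x' + b0) * (x' + b1) * (x' + b2))) :
    dl x x' w ∈ Rat (crv a0 a1 a2) (crv b0 b1 b2) := by
  have hβ := hm.hβ
  have hA0 : a0 + γ ≠ 0 := fun h0 => hβ (by rw [← hm.h0, h0, zero_mul])
  have hA1 : a1 + γ ≠ 0 := fun h0 => hβ (by rw [← hm.h1, h0, zero_mul])
  have hA2 : a2 + γ ≠ 0 := fun h0 => hβ (by rw [← hm.h2, h0, zero_mul])
  have hX : x - γ ≠ 0 := fun h0 => hβ (by rw [← hx, h0, zero_mul])
  set D : F := β ^ 3 / ((a0 + γ) * (a1 + γ) * (a2 + γ)) with hD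
  have hD0 : D ≠ 0 := div_ne_zero (pow_ne_zero 3 hβ) (mul_ne_zero (mul_ne_zero hA0 hA1) hA2)
  have f0 : b0 = β / (a0 + γ) - α := by rw [eq_sub_iff_add_eq, eq_div_iff hA0, mul_comm, hm.h0]
  have f1 : b1 = β / (a1 + γ) - α := by rw [eq_sub_iff_add_eq, eq_div_iff hA1, mul_comm, hm.h1]
  have f2 : b2 = β / (a2 + γ) - α := by rw [eq_sub_iff_add_eq, eq_div_iff hA2, mul_comm, hm.h2]
  obtain ⟨t, ht⟩ := IsAlgClosed.exists_pow_nat_eq ((x - γ) / D) (by norm_num : 0 < 2)
  have hDt : D * t ^ 2 = x - γ := by rw [ht, mul_div_cancel₀ _ hD0]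
  have ht0 : t ≠ 0 := by
    intro h0
    apply hX
    rw [← hDt, h0]
    ring
  -- the rational curve
  let p : F[X] := (C γ + C D * X ^ 2) * (C D * X ^ 3)
  let p' : F[X] := (C α * (C D * X ^ 2) + C β) * X
  let d : F[X] := C D * X ^ 3
  let q : F[X] := (C D * X ^ 2 + C (a0 + γ)) * (C D * X ^ 2 + C (a1 + γ)) * (C D * X ^ 2 + C (a2 + γ))
  have ep : ∀ s : F, s ≠ 0 → p.eval s / d.eval s = γ + D * s ^ 2 := by
    intro s hs
    simp only [p, d, eval_add, eval_mul, eval_C, eval_pow, eval_X]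
    field_simp
  have ep' : ∀ s : F, s ≠ 0 → p'.eval s / d.eval s = α + β / (D * s ^ 2) := by
    intro s hs
    simp only [p', d, eval_add, eval_mul, eval_C, eval_pow, eval_X]
    field_simp
  have eq' : ∀ s : F, s ≠ 0 → q.eval s / d.eval s =
      (D * s ^ 2 + (a0 + γ)) * (D * s ^ 2 + (a1 + γ)) * (D * s ^ 2 + (a2 + γ)) / (D * s ^ 3) := by
    intro s hs
    simp only [q, d, eval_add, eval_mul, eval_C, eval_pow, eval_X]
  have hds : ∀ s : F, d.eval s ≠ 0 → s ≠ 0 := by
    intro s hs h0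
    apply hs
    simp only [d, eval_mul, eval_C, eval_pow, eval_X, h0]
    ring
  have hd : ∀ s : F, s ≠ 0 → d.eval s ≠ 0 := by
    intro s hs
    simp only [d, eval_mul, eval_C, eval_pow, eval_X]
    exact mul_ne_zero hD0 (pow_ne_zero 3 hs)
  have hsurf : ∀ s : F, d.eval s ≠ 0 → OnSurface (crv a0 a1 a2) (crv b0 b1 b2)
      (p.eval s / d.eval s, p'.eval s / d.eval s, q.eval s / d.eval s) := by
    intro s hs
    have hs0 := hds s hs
    rw [ep s hs0, ep' s hs0, eq' s hs0]
    change _ ^ 2 = cubic _ _ * cubic _ _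
    rw [cubic_crv, cubic_crv, f0, f1, f2]
    have hDD : D * ((a0 + γ) * (a1 + γ) * (a2 + γ)) = β ^ 3 := by
      rw [hD, div_mul_cancel₀ _ (mul_ne_zero (mul_ne_zero hA0 hA1) hA2)]
    clear_value D
    have e1 : (α + β / (D * s ^ 2) + (β / (a0 + γ) - α)) * (α + β / (D * s ^ 2) + (β / (a1 + γ) - α)) *
        (α + β / (D * s ^ 2) + (β / (a2 + γ) - α)) =
        β ^ 3 * ((D * s ^ 2 + (a0 + γ)) * (D * s ^ 2 + (a1 + γ)) * (D * s ^ 2 + (a2 + γ))) /
          (((a0 + γ) * (a1 + γ) * (a2 + γ)) * (D * s ^ 2) ^ 3) := by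
      field_simp
      ring
    rw [e1, ← hDD]
    field_simp
    ring
  -- the point
  have hx1 : γ + D * t ^ 2 = x := by rw [hDt]; ring
  have hx2 : α + β / (D * t ^ 2) = x' := by
    rw [hDt, ← hx]
    field_simp
    ring
  set w0 : F := (D * t ^ 2 + (a0 + γ)) * (D * t ^ 2 + (a1 + γ)) * (D * t ^ 2 + (a2 + γ)) /
    (D * t ^ 3) with hw0
  have hmem : dl x x' w0 ∈ Rat (crv a0 a1 a2) (crv b0 b1 b2) := by
    apply AddSubgroup.subset_closure
    refine Or.inl (Or.inr ⟨p, p', q, d, hsurf, t, -t, hd t ht0, hd (-t) (neg_ne_zero.mpr ht0), ?_⟩)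
    rw [ep t ht0, ep' t ht0, eq' t ht0, ep (-t) (neg_ne_zero.mpr ht0),
      ep' (-t) (neg_ne_zero.mpr ht0), eq' (-t) (neg_ne_zero.mpr ht0)]
    have e1 : (-t) ^ 2 = t ^ 2 := by ring
    have e2 : (-t) ^ 3 = -(t ^ 3) := by ring
    rw [e1, e2, hx1, hx2, mul_neg, div_neg, ← hw0]
    rfl
  have hww : w ^ 2 = w0 ^ 2 := by
    have h1 := hsurf t (hd t ht0)
    rw [ep t ht0, ep' t ht0, eq' t ht0, hx1, hx2] at h1
    change w0 ^ 2 = cubic _ _ * cubic _ _ at h1
    rw [cubic_crv, cubic_crv] at h1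
    rw [hw, h1]
  rcases sq_eq_sq_iff_eq_or_eq_neg.mp hww with h1 | h1
  · rw [h1]
    exact hmem
  · rw [h1, dl_neg]
    exact neg_mem hmem

lemma mob_swap {a0 a1 a2 b0 b1 b2 α β γ : F} (hm : Mob a0 a1 a2 b0 b1 b2 α β γ) :
    Mob b0 b1 b2 a0 a1 a2 γ β α :=
  ⟨hm.hβ, by rw [mul_comm, hm.h0], by rw [mul_comm, hm.h1], by rw [mul_comm, hm.h2]⟩

/-- a Möbius map from three points to three points which moves infinity. -/
lemma mob_of_det {a0 a1 a2 b0 b1 b2 : F} (ha01 : a0 ≠ a1) (ha02 : a0 ≠ a2) (ha12 : a1 ≠ a2)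
    (hb01 : b0 ≠ b1) (hb02 : b0 ≠ b2) (hb12 : b1 ≠ b2)
    (hdet : (a0 - a1) * (b0 - b2) - (a0 - a2) * (b0 - b1) ≠ 0) :
    ∃ α β γ, Mob a0 a1 a2 b0 b1 b2 α β γ := by
  set Δ : F := (a0 - a1) * (b0 - b2) - (a0 - a2) * (b0 - b1) with hΔ
  set α : F := (-(a0 * b0 - a1 * b1) * (b0 - b2) + (a0 * b0 - a2 * b2) * (b0 - b1)) / Δ with hα
  set γ : F := (-(a0 - a1) * (a0 * b0 - a2 * b2) + (a0 - a2) * (a0 * b0 - a1 * b1)) / Δ with hγ
  have e1 : (a1 + γ) * (b1 + α) = (a0 + γ) * (b0 + α) := by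
    have h1 : (a0 * b0 - a1 * b1) + α * (a0 - a1) + γ * (b0 - b1) = 0 := by
      rw [hα, hγ]
      field_simp
      rw [hΔ]
      ring
    linear_combination (-1 : F) * h1
  have e2 : (a2 + γ) * (b2 + α) = (a0 + γ) * (b0 + α) := by
    have h1 : (a0 * b0 - a2 * b2) + α * (a0 - a2) + γ * (b0 - b2) = 0 := by
      rw [hα, hγ]
      field_simp
      rw [hΔ]
      ring
    linear_combination (-1 : F) * h1
  refine ⟨α, (a0 + γ) * (b0 + α), γ, ⟨?_, rfl, e1, e2⟩⟩
  intro h0
  rw [h0] at e1 e2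
  rcases mul_eq_zero.mp h0 with h3 | h3 <;> rcases mul_eq_zero.mp e1 with h4 | h4 <;>
    rcases mul_eq_zero.mp e2 with h5 | h5
  · exact ha01 (by linear_combination h3 - h4)
  · exact ha01 (by linear_combination h3 - h4)
  · exact ha02 (by linear_combination h3 - h5)
  · exact hb12 (by linear_combination h4 - h5)
  · exact ha12 (by linear_combination h4 - h5)
  · exact hb02 (by linear_combination h3 - h5)
  · exact hb01 (by linear_combination h3 - h4)
  · exact hb01 (by linear_combination h3 - h4)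

lemma mob_exists [CharZero F] {a0 a1 a2 b0 b1 b2 : F} (ha01 : a0 ≠ a1) (ha02 : a0 ≠ a2)
    (ha12 : a1 ≠ a2) (hb01 : b0 ≠ b1) (hb02 : b0 ≠ b2) (hb12 : b1 ≠ b2) :
    (∃ α β γ, Mob a0 a1 a2 b0 b1 b2 α β γ) ∨ (∃ α β γ, Mob a0 a1 a2 b0 b2 b1 α β γ) ∨
      ∃ α β γ, Mob a0 a1 a2 b1 b0 b2 α β γ := by
  by_cases d1 : (a0 - a1) * (b0 - b2) - (a0 - a2) * (b0 - b1) = 0
  · by_cases d2 : (a0 - a1) * (b0 - b1) - (a0 - a2) * (b0 - b2) = 0
    · by_cases d3 : (a0 - a1) * (b1 - b2) - (a0 - a2) * (b1 - b0) = 0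
      · exfalso
        have h1 : (a2 - a1) * ((b0 - b1) + (b0 - b2)) = 0 := by linear_combination d1 + d2
        have h2 : (b0 - b1) + (b0 - b2) = 0 := by
          rcases mul_eq_zero.mp h1 with h | h
          · exact absurd (by linear_combination -h) ha12
          · exact h
        have h3 : (b0 - b2) * ((a0 - a1) + (a0 - a2)) = 0 := by
          linear_combination d1 + (a0 - a2) * h2
        have h4 : (a0 - a1) + (a0 - a2) = 0 := by
          rcases mul_eq_zero.mp h3 with h | h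
          · exact absurd (by linear_combination h) hb02
          · exact h
        have h5 : 3 * ((a0 - a1) * (b0 - b2)) = 0 := by
          linear_combination d3 - (b0 - b1) * h4 + 2 * (a0 - a1) * h2
        have h6 : (3 : F) ≠ 0 := by norm_num
        rcases mul_eq_zero.mp h5 with h | h
        · exact h6 h
        · rcases mul_eq_zero.mp h with h | h
          · exact ha01 (by linear_combination h)
          · exact hb02 (by linear_combination h)
      · exact Or.inr (Or.inr (mob_of_det ha01 ha02 ha12 hb01.symm hb12 hb02 d3))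
    · exact Or.inr (Or.inl (mob_of_det ha01 ha02 ha12 hb02 hb01 hb12.symm d2))
  · exact Or.inl (mob_of_det ha01 ha02 ha12 hb01 hb02 hb12 d1)

end proofs

section final

variable {F : Type} [Field F]

lemma exists_crv [IsAlgClosed F] [CharZero F] (E : WeierstrassCurve F) (h1 : E.a₁ = 0)
    (h3 : E.a₃ = 0) : ∃ e0 e1 e2, E = crv e0 e1 e2 := by
  obtain ⟨r, hr⟩ := IsAlgClosed.exists_root (X ^ 3 + C E.a₂ * X ^ 2 + C E.a₄ * X + C E.a₆ : F[X])
    (by
      have : (X ^ 3 + C E.a₂ * X ^ 2 + C E.a₄ * X + C E.a₆ : F[X]).degree = 3 := by compute_degree!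
      rw [this]
      decide)
  simp only [IsRoot.def, eval_add, eval_mul, eval_C, eval_pow, eval_X] at hr
  obtain ⟨s, hs⟩ := IsAlgClosed.exists_pow_nat_eq ((E.a₂ + r) ^ 2 - 4 * (E.a₄ + r * (E.a₂ + r)))
    (by norm_num : 0 < 2)
  have h2 : (2 : F) ≠ 0 := by norm_num
  have h4 : (4 : F) ≠ 0 := by norm_num
  refine ⟨-r, (E.a₂ + r + s) / 2, (E.a₂ + r - s) / 2, ?_⟩
  have hc : (E.a₂ + r + s) / 2 * ((E.a₂ + r - s) / 2) = E.a₄ + r * (E.a₂ + r) := by
    have : (E.a₂ + r + s) / 2 * ((E.a₂ + r - s) / 2) = ((E.a₂ + r) ^ 2 - s ^ 2) / 4 := by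
      field_simp
      ring
    rw [this, hs]
    field_simp
    ring
  have hb : (E.a₂ + r + s) / 2 + (E.a₂ + r - s) / 2 = E.a₂ + r := by
    field_simp
    ring
  ext
  · rw [h1]
    rfl
  · simp only [crv]
    linear_combination (-1 : F) * hb
  · rw [h3]
    rfl
  · simp only [crv]
    linear_combination (-1 : F) * hc + r * hb
  · simp only [crv]
    linear_combination r * hc + hr

lemma crv_ne [CharZero F] {e0 e1 e2 : F} (h : (crv e0 e1 e2).IsElliptic) :
    e0 ≠ e1 ∧ e0 ≠ e2 ∧ e1 ≠ e2 := by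
  have h1 := h.isUnit.ne_zero
  rw [crv_Δ] at h1
  refine ⟨?_, ?_, ?_⟩
  · rintro rfl
    exact h1 (by ring)
  · rintro rfl
    exact h1 (by ring)
  · rintro rfl
    exact h1 (by ring)

/-- two central points -/
lemma central_pair (E E' : WeierstrassCurve F) {p q : F × F × F} (hp : Central E E' p)
    (hq : Central E E' q) :
    ∃ N : ℕ, N ≠ 0 ∧ N • (pt p.1 p.2.1 p.2.2 - pt q.1 q.2.1 q.2.2) ∈ Rat E E' := by
  obtain ⟨hp1, N, hN, hp2⟩ := hp
  obtain ⟨hq1, N', hN', hq2⟩ := hq
  refine ⟨2 * (N * N'), mul_ne_zero two_ne_zero (mul_ne_zero hN hN'), ?_⟩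
  have hf : pt p.1 p.2.1 p.2.2 + pt p.1 p.2.1 (-p.2.2) - pt q.1 q.2.1 q.2.2 -
      pt q.1 q.2.1 (-q.2.2) ∈ Rat E E' :=
    AddSubgroup.subset_closure (Or.inr ⟨_, _, _, _, _, _, hp1, hq1, rfl⟩)
  have h1 := (Rat E E').add_mem ((Rat E E').nsmul_mem hf (N * N'))
    ((Rat E E').sub_mem ((Rat E E').nsmul_mem hp2 N') ((Rat E E').nsmul_mem hq2 N))
  have h2 : (2 * (N * N')) • (pt p.1 p.2.1 p.2.2 - pt q.1 q.2.1 q.2.2) =
      (N * N') • (pt p.1 p.2.1 p.2.2 + pt p.1 p.2.1 (-p.2.2) - pt q.1 q.2.1 q.2.2 -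
        pt q.1 q.2.1 (-q.2.2)) +
      (N' • (N • dl p.1 p.2.1 p.2.2) - N • (N' • dl q.1 q.2.1 q.2.2)) := by
    rw [smul_smul, smul_smul, mul_comm N' N]
    unfold dl
    module
  rw [h2]
  exact h1

/-- The statement of the theorem for the fibres. -/
def Main [DecidableEq F] (E E' : WeierstrassCurve F) : Prop :=
  (∀ P : E.toAffine.Point, ∃ H : AddSubgroup E'.toAffine.Point,
    (∀ Q, Q ∈ H ↔ CentralPair P Q) ∧
      ∀ n : ℕ, ∃ v : Fin n → E'.toAffine.Point, (∀ i, v i ∈ H) ∧ LinearIndependent ℤ v) ∧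
  (∀ Q : E'.toAffine.Point, ∃ H : AddSubgroup E.toAffine.Point,
    (∀ P, P ∈ H ↔ CentralPair P Q) ∧
      ∀ n : ℕ, ∃ v : Fin n → E.toAffine.Point, (∀ i, v i ∈ H) ∧ LinearIndependent ℤ v)

theorem main_crv [DecidableEq F] [CharZero F] [IsAlgClosed F] [Algebra.IsAlgebraic ℚ F]
    {a0 a1 a2 b0 b1 b2 α β γ : F} (hm : Mob a0 a1 a2 b0 b1 b2 α β γ)
    (ha01 : a0 ≠ a1) (ha02 : a0 ≠ a2) (ha12 : a1 ≠ a2)
    (hb01 : b0 ≠ b1) (hb02 : b0 ≠ b2) (hb12 : b1 ≠ b2) :
    Main (crv a0 a1 a2) (crv b0 b1 b2) := by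
  have hφ : ∀ (x y x' y' : F) (h : (crv a0 a1 a2).toAffine.Nonsingular x y)
      (h' : (crv b0 b1 b2).toAffine.Nonsingular x' y'), (x - γ) * (x' - α) = β →
      phi a0 a1 a2 b0 b1 b2 (.some x y h) (.some x' y' h') = 0 := by
    intro x y x' y' h h' hx
    rw [phi_apply, QuotientAddGroup.eq_zero_iff, cyc_some]
    apply dl_mem_rat hm hx
    rw [← crv_eqn.mp h.1, ← crv_eqn.mp h'.1]
    ring
  refine ⟨fun P => ⟨tker (phi a0 a1 a2 b0 b1 b2 P), fun Q => (central_iff' P Q).symm, fun n => ?_⟩,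
    fun Q => ⟨tker ((phi a0 a1 a2 b0 b1 b2).flip Q), fun P => (central_iff' P Q).symm, fun n => ?_⟩⟩
  · obtain ⟨v, hv, hvH⟩ := rank_all hm ha01 ha02 ha12 hb01 hb02 hb12 (phi a0 a1 a2 b0 b1 b2) hφ P n
    exact ⟨v, hvH, hv⟩
  · obtain ⟨v, hv, hvH⟩ := rank_all (mob_swap hm) hb01 hb02 hb12 ha01 ha02 ha12
      (phi a0 a1 a2 b0 b1 b2).flip (fun x y x' y' h h' hx => by
        rw [AddMonoidHom.flip_apply]
        exact hφ x' y' x y h' h (by rw [mul_comm, hx])) Q n
    exact ⟨v, hvH, hv⟩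

end final

/-- **In every fibre the points in the class `c_X` are a subgroup of infinite rank.** -/
theorem result {F : Type} [Field F] [CharZero F] [IsAlgClosed F] [Algebra.IsAlgebraic ℚ F]
    [DecidableEq F] (E E' : WeierstrassCurve F) [hE : E.IsElliptic] [hE' : E'.IsElliptic]
    (h₁ : E.a₁ = 0) (h₃ : E.a₃ = 0) (h₁' : E'.a₁ = 0) (h₃' : E'.a₃ = 0) :
    -- (1) two central points are rationally equivalent, up to torsion
    (∀ p q : F × F × F, Central E E' p → Central E E' q →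
      ∃ N : ℕ, N ≠ 0 ∧ N • (pt p.1 p.2.1 p.2.2 - pt q.1 q.2.1 q.2.2) ∈ Rat E E') ∧
    -- (2) the central points in the fibre over a point of the first curve
    (∀ P : E.toAffine.Point, ∃ H : AddSubgroup E'.toAffine.Point,
      (∀ Q, Q ∈ H ↔ CentralPair P Q) ∧
        ∀ n : ℕ, ∃ v : Fin n → E'.toAffine.Point, (∀ i, v i ∈ H) ∧ LinearIndependent ℤ v) ∧
    -- (3) the central points in the fibre over a point of the second curve
    (∀ Q : E'.toAffine.Point, ∃ H : AddSubgroup E.toAffine.Point,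
      (∀ P, P ∈ H ↔ CentralPair P Q) ∧
        ∀ n : ℕ, ∃ v : Fin n → E.toAffine.Point, (∀ i, v i ∈ H) ∧ LinearIndependent ℤ v) := by
  refine ⟨fun p q hp hq => central_pair E E' hp hq, ?_⟩
  change Main E E'
  obtain ⟨a0, a1, a2, rfl⟩ := exists_crv E h₁ h₃
  obtain ⟨b0, b1, b2, rfl⟩ := exists_crv E' h₁' h₃'
  obtain ⟨ha01, ha02, ha12⟩ := crv_ne hE
  obtain ⟨hb01, hb02, hb12⟩ := crv_ne hE'
  rcases mob_exists ha01 ha02 ha12 hb01 hb02 hb12 with ⟨α, β, γ, hm⟩ | ⟨α, β, γ, hm⟩ | ⟨α, β, γ, hm⟩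
  · exact main_crv hm ha01 ha02 ha12 hb01 hb02 hb12
  · have h := main_crv hm ha01 ha02 ha12 hb02 hb01 hb12.symm
    have he : crv b0 b2 b1 = crv b0 b1 b2 := by
      ext <;> simp only [crv] <;> ring
    rw [he] at h
    exact h
  · have h := main_crv hm ha01 ha02 ha12 hb01.symm hb12 hb02
    have he : crv b1 b0 b2 = crv b0 b1 b2 := by
      ext <;> simp only [crv] <;> ring
    rw [he] at h
    exact h

end Pool.Agent.Results.MP_9207e0_ag.InfiniteRankFibres
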