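import Pool.Agent.T9h40.InfR
import Pool.Agent.Results.MP_9207e0_ag.InfiniteRankFibres

/-!
# Subgroups of infinite rank of all elliptic curves over `ℚ̄` which are pairwise orthogonal

`F` is an algebraic closure of `ℚ` and `E : y² = f(x)`, `E' : y² = g(x)` are elliptic curves over `F`
(every elliptic curve over `F` has such an equation). The Kummer surface of `E × E'` is the K3 surface
`w² = f(x) g(x')`; the point of it of the pair `P = (x, y)`, `Q = (x', y')` is `(x, x', y y')`. `Rat E E'`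
is the group of zero-cycles of the hand-in `InfiniteRankFibres`, generated by some cycles which are
rationally equivalent to zero. The Bloch-Beilinson conjecture says that all points of the surface are
rationally equivalent.

**Theorem.** For every elliptic curve `E` over `F` there is a subgroup `W_E` of `E(F)` of infinite
rank such that for *all* elliptic curves `E, E'` over `F` (`E = E'` is allowed) the cycle of every pair
in `W_E × W_E'` is rationally equivalent to zero, and any two points of the Kummer surface of `E × E'`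
which come from `W_E × W_E'` are rationally equivalent up to torsion.

So for all `E, E'` the class `c_X` contains the images of the points of the group `W_E × W_E'`, which
has infinite rank in both directions, and `W_E` is the same group for all `E'`.

Idea of the proof. Let `E` be `y² = x (x - 1) (x - λ)`. There are isogenies of degree two
`x ↦ (x + s)² / ((1 + s)² x)` from `E_{s²}` to `E_λ` for `λ = 4 s / (1 + s)²`. Let
`E_λ ← E_{s₀²} ← E_{s₁²} ← ⋯` be such a chain, and `P_n` the image of a point with `x = 1 / 512` of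
the curve `E_{sₙ²}`. For two chains the points `(P_i, P'_j)` are on the image of the curve `x = x'` in the
Kummer surface of `E_{s_i²} × E_{s'_j²}`, which is rational, as is `w² = (x (x - 1))² (x - μ) (x - μ')`; it
contains the image `x = x' = 1` of a pair of points of order two. So the cycles of the pairs
`(P_i, P'_j)` are zero, and `W_E` is the group generated by the `P_n`. The signs in
`sₙ = (1 - uₙ) / (1 + uₙ)`, `uₙ² = 1 - λₙ` are chosen such that `sₙ` tends to zero very fast (for an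
embedding in `ℂ`), while its height grows slowly: so the chain is not defined over a number field.
If `W_E` had finite rank, we could take a number field `L` over which a multiple of each `P_n` is
defined, and the first `n` such that `sₙ` is not in `L`. There is an automorphism over `L` which maps
`sₙ` to `1 / sₙ`, and `P_n` to the image `P'_n` of a point with `x = 512` of `E_{sₙ²}`. So one of
`P_n ± P'_n` is torsion. But the sum and the difference of the points with `x = 1 / 512` and `x = 512` are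
points of infinite order, since (for a place above 2) their `x`-coordinates are very small.
-/

set_option autoImplicit false

open WeierstrassCurve Polynomial

namespace Pool.Agent.Results.MP_9207e0_ag.OrthogonalSubgroups

open Pool.Agent.H437R2.Man.MW Pool.Agent.T9h40.K3
open Pool.Agent.Results.MP_9207e0_ag.InfiniteRankFibres

section conn

variable {F : Type} [Field F]

/-- There is a rational curve on the surface through a point `(X, X', *)` and the point `(A, A', 0)`. -/
def Conn (E E' : WeierstrassCurve F) (A A' X X' : F) : Prop :=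
  ∃ (p p' q d : F[X]) (z0 z1 : F),
    (∀ t, d.eval t ≠ 0 →
      OnSurface E E' (p.eval t / d.eval t, p'.eval t / d.eval t, q.eval t / d.eval t)) ∧
    d.eval z0 ≠ 0 ∧ d.eval z1 ≠ 0 ∧ p.eval z0 / d.eval z0 = X ∧ p'.eval z0 / d.eval z0 = X' ∧
    p.eval z1 / d.eval z1 = A ∧ p'.eval z1 / d.eval z1 = A' ∧ q.eval z1 = 0

lemma conn_mem {E E' : WeierstrassCurve F} {A A' X X' w : F} (h : Conn E E' A A' X X')
    (hw : w ^ 2 = cubic E X * cubic E' X') : dl X X' w ∈ Rat E E' := by
  obtain ⟨p, p', q, d, z0, z1, hs, h0, h1, e1, e2, e3, e4, e5⟩ := h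
  set W : F := q.eval z0 / d.eval z0 with hW
  have m1 : pt X X' W - pt A A' 0 ∈ Rat E E' := by
    apply AddSubgroup.subset_closure
    refine Or.inl (Or.inr ⟨p, p', q, d, hs, z0, z1, h0, h1, ?_⟩)
    rw [e1, e2, e3, e4, e5, zero_div]
  have m2 : pt X X' (-W) - pt A A' 0 ∈ Rat E E' := by
    apply AddSubgroup.subset_closure
    refine Or.inl (Or.inr ⟨p, p', -q, d, fun t ht => ?_, z0, z1, h0, h1, ?_⟩)
    · have := hs t ht
      change _ ^ 2 = _ at this
      change _ ^ 2 = _
      rw [eval_neg, neg_div, neg_sq]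
      exact this
    · rw [e1, e2, e3, e4, eval_neg, eval_neg, e5, neg_div, neg_zero, zero_div]
  have m3 : dl X X' W ∈ Rat E E' := by
    have := sub_mem m1 m2
    rw [sub_sub_sub_cancel_right] at this
    exact this
  have h2 : W ^ 2 = cubic E X * cubic E' X' := by
    have := hs z0 h0
    rw [e1, e2] at this
    exact this
  rcases sq_eq_sq_iff_eq_or_eq_neg.mp (hw.trans h2.symm) with h3 | h3
  · rw [h3]
    exact m3
  · rw [h3, dl_neg]
    exact neg_mem m3

lemma conn_swap {E E' : WeierstrassCurve F} {A A' X X' : F} (h : Conn E E' A A' X X') :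
    Conn E' E A' A X' X := by
  obtain ⟨p, p', q, d, z0, z1, hs, h0, h1, e1, e2, e3, e4, e5⟩ := h
  refine ⟨p', p, q, d, z0, z1, fun t ht => ?_, h0, h1, e2, e1, e4, e3, e5⟩
  have := hs t ht
  change _ = _ * _ at this
  change _ = _ * _
  rw [mul_comm]
  exact this

lemma conn_affine {E0 E E' : WeierstrassCurve F} {A A' X X' u r c : F} (hc : c ^ 2 = u ^ 3)
    (hE : ∀ x, cubic E (r + u * x) = u ^ 3 * cubic E0 x) (h : Conn E0 E' A A' X X') :
    Conn E E' (r + u * A) A' (r + u * X) X' := by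
  obtain ⟨p, p', q, d, z0, z1, hs, h0, h1, e1, e2, e3, e4, e5⟩ := h
  have hp : ∀ t, d.eval t ≠ 0 → (C r * d + C u * p).eval t / d.eval t =
      r + u * (p.eval t / d.eval t) := by
    intro t ht
    simp only [eval_add, eval_mul, eval_C]
    field_simp
  refine ⟨C r * d + C u * p, p', C c * q, d, z0, z1, fun t ht => ?_, h0, h1, ?_, e2, ?_, e4, ?_⟩
  · have h2 := hs t ht
    change _ ^ 2 = _ * _ at h2
    change _ ^ 2 = _ * _
    simp only at h2 ⊢
    rw [hp t ht, hE, eval_mul, eval_C, mul_div_assoc, mul_pow, hc, h2]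
    ring
  · rw [hp z0 h0, e1]
  · rw [hp z1 h1, e3]
  · rw [eval_mul, e5, mul_zero]

lemma cubic_leg (μ x : F) : cubic (crv 0 (-1) (-μ)) x = fE 0 (-1) (-μ) x := cubic_crv _ _ _ _

lemma conn_tau {E' : WeierstrassCurve F} {A' X X' s : F} (hs1 : 1 + s ≠ 0) (hX : X ≠ 0)
    (h : Conn (crv 0 (-1) (-s ^ 2)) E' 1 A' X X') :
    Conn (crv 0 (-1) (-muf s)) E' 1 A' (tau s X) X' := by
  obtain ⟨p, p', q, d, z0, z1, hs, h0, h1, e1, e2, e3, e4, e5⟩ := h
  set dn : F[X] := C ((1 + s) ^ 3) * p ^ 2 * d with hdn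
  have ed : ∀ t, dn.eval t = (1 + s) ^ 3 * (p.eval t) ^ 2 * d.eval t := by
    intro t
    rw [hdn, eval_mul, eval_mul, eval_C, eval_pow]
  have hd1 : ∀ t, dn.eval t ≠ 0 → p.eval t ≠ 0 ∧ d.eval t ≠ 0 := by
    intro t ht
    rw [ed] at ht
    refine ⟨fun h => ht ?_, fun h => ht ?_⟩ <;> rw [h] <;> ring
  have hd2 : ∀ t, p.eval t ≠ 0 → d.eval t ≠ 0 → dn.eval t ≠ 0 := by
    intro t h2 h3
    rw [ed]
    exact mul_ne_zero (mul_ne_zero (pow_ne_zero 3 hs1) (pow_ne_zero 2 h2)) h3
  have hx : ∀ t, p.eval t ≠ 0 → d.eval t ≠ 0 →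
      (C (1 + s) * p * (p + C s * d) ^ 2).eval t / dn.eval t = tau s (p.eval t / d.eval t) := by
    intro t h2 h3
    rw [ed]
    unfold tau
    simp only [eval_add, eval_mul, eval_C, eval_pow]
    field_simp
  have hx' : ∀ t, p.eval t ≠ 0 → d.eval t ≠ 0 →
      (C ((1 + s) ^ 3) * p ^ 2 * p').eval t / dn.eval t = p'.eval t / d.eval t := by
    intro t h2 h3
    rw [ed]
    simp only [eval_mul, eval_C, eval_pow]
    field_simp
  have hw : ∀ t, p.eval t ≠ 0 → d.eval t ≠ 0 →
      (q * (p ^ 2 - C (s ^ 2) * d ^ 2)).eval t / dn.eval t = q.eval t / d.eval t *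
        (((p.eval t / d.eval t) ^ 2 - s ^ 2) / ((1 + s) ^ 3 * (p.eval t / d.eval t) ^ 2)) := by
    intro t h2 h3
    rw [ed]
    simp only [eval_mul, eval_C, eval_pow, eval_sub]
    field_simp
  have p0 : p.eval z0 ≠ 0 := by
    intro h
    apply hX
    rw [← e1, h, zero_div]
  have p1 : p.eval z1 ≠ 0 := by
    intro h
    rw [h, zero_div] at e3
    exact zero_ne_one e3
  refine ⟨C (1 + s) * p * (p + C s * d) ^ 2, C ((1 + s) ^ 3) * p ^ 2 * p',
    q * (p ^ 2 - C (s ^ 2) * d ^ 2), dn, z0, z1, fun t ht => ?_, hd2 z0 p0 h0, hd2 z1 p1 h1, ?_, ?_, ?_,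
    ?_, ?_⟩
  · obtain ⟨g1, g2⟩ := hd1 t ht
    have h2 := hs t g2
    change _ ^ 2 = _ * _ at h2
    change _ ^ 2 = _ * _
    simp only at h2 ⊢
    rw [hx t g1 g2, hx' t g1 g2, hw t g1 g2, mul_pow, h2, cubic_leg, cubic_leg,
      fE_tau hs1 (div_ne_zero g1 g2)]
    ring
  · rw [hx z0 p0 h0, e1]
  · rw [hx' z0 p0 h0, e2]
  · rw [hx z1 p1 h1, e3, tau_one hs1]
  · rw [hx' z1 p1 h1, e4]
  · rw [eval_mul, e5, zero_mul]

lemma conn_base [IsAlgClosed F] {μ μ' t : F} (h1' : μ' ≠ 1) (ht : t ≠ μ') :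
    Conn (crv 0 (-1) (-μ)) (crv 0 (-1) (-μ')) 1 1 t t := by
  by_cases hμ : μ = μ'
  · subst hμ
    refine ⟨X, X, X * (X - 1) * (X - C μ), 1, t, 1, fun z _ => ?_, ?_, ?_, ?_, ?_, ?_, ?_, ?_⟩
    · change _ ^ 2 = _ * _
      simp only [eval_mul, eval_X, eval_sub, eval_one, eval_C]
      rw [cubic_leg, fE_leg]
      simp only [div_one]
      ring
    all_goals simp
  · obtain ⟨z0, hz0⟩ := IsAlgClosed.exists_pow_nat_eq ((t - μ) / (t - μ')) (by norm_num : 0 < 2)
    obtain ⟨z1, hz1⟩ := IsAlgClosed.exists_pow_nat_eq ((1 - μ) / (1 - μ')) (by norm_num : 0 < 2)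
    have ht' : t - μ' ≠ 0 := sub_ne_zero.mpr ht
    have h1'' : 1 - μ' ≠ 0 := sub_ne_zero.mpr h1'.symm
    have hμ' : μ - μ' ≠ 0 := sub_ne_zero.mpr hμ
    have hd0 : 1 - z0 ^ 2 ≠ 0 := by
      have : 1 - z0 ^ 2 = (μ - μ') / (t - μ') := by
        rw [hz0]
        field_simp
        ring
      rw [this]
      exact div_ne_zero hμ' ht'
    have hd1 : 1 - z1 ^ 2 ≠ 0 := by
      have : 1 - z1 ^ 2 = (μ - μ') / (1 - μ') := by
        rw [hz1]
        field_simp
        ring
      rw [this]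
      exact div_ne_zero hμ' h1''
    have k0 : (μ - μ' * z0 ^ 2) = t * (1 - z0 ^ 2) := by
      rw [hz0]
      field_simp
      ring
    have k1 : (μ - μ' * z1 ^ 2) = 1 * (1 - z1 ^ 2) := by
      rw [hz1]
      field_simp
      ring
    set p : F[X] := (C μ - C μ' * X ^ 2) * (1 - X ^ 2) ^ 2 with hp
    set d : F[X] := (1 - X ^ 2) ^ 3 with hd
    have ed : ∀ z : F, d.eval z = (1 - z ^ 2) ^ 3 := by
      intro z
      simp only [hd, eval_pow, eval_sub, eval_one, eval_X]
    have ep : ∀ z : F, 1 - z ^ 2 ≠ 0 → p.eval z / d.eval z = (μ - μ' * z ^ 2) / (1 - z ^ 2) := by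
      intro z hz
      rw [ed]
      simp only [hp, eval_mul, eval_pow, eval_sub, eval_one, eval_X, eval_C]
      field_simp
    refine ⟨p, p, (C μ - C μ' * X ^ 2) * ((C μ - C μ' * X ^ 2) - (1 - X ^ 2)) *
      (X * C (μ - μ')), d, z0, z1, fun z hz => ?_, ?_, ?_, ?_, ?_, ?_, ?_, ?_⟩
    · have hz' : 1 - z ^ 2 ≠ 0 := by
        intro h
        apply hz
        rw [ed, h]
        ring
      change _ ^ 2 = _ * _
      rw [ep z hz', ed, cubic_leg, cubic_leg, fE_leg, fE_leg]
      simp only [eval_mul, eval_pow, eval_sub, eval_one, eval_X, eval_C]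
      field_simp
      ring
    · rw [ed]
      exact pow_ne_zero 3 hd0
    · rw [ed]
      exact pow_ne_zero 3 hd1
    · rw [ep z0 hd0, k0, mul_div_cancel_right₀ _ hd0]
    · rw [ep z0 hd0, k0, mul_div_cancel_right₀ _ hd0]
    · rw [ep z1 hd1, k1, mul_div_cancel_right₀ _ hd1]
    · rw [ep z1 hd1, k1, mul_div_cancel_right₀ _ hd1]
    · simp only [eval_mul, eval_pow, eval_sub, eval_one, eval_X, eval_C]
      rw [k1]
      ring

lemma conn_rho [CharZero F] {lam : F} {s : ℕ → F} (hc : Chain lam s) {E' : WeierstrassCurve F}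
    {A' X X' : F} (n : ℕ) (hX : Inf 0 (-1) (-muS lam s n) X)
    (h : Conn (crv 0 (-1) (-muS lam s n)) E' 1 A' X X') :
    Conn (crv 0 (-1) (-lam)) E' 1 A' (rho s n X) X' := by
  induction n generalizing X with
  | zero => exact h
  | succ n ih =>
    apply ih
    · rw [← hc.hm n]
      exact inf_tau (hc.h1 n) (hc.h0 n) hX
    · rw [← hc.hm n]
      exact conn_tau (hc.h1 n) (leg_ne (hX.1 0)).1 h

end conn

section main

variable {F : Type} [Field F] [CharZero F] [IsAlgClosed F] [Algebra.IsAlgebraic ℚ F]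

/-- `X` is the sequence of the `x`-coordinates of the points of a chain for `E`. -/
def Gen (E : WeierstrassCurve F) (X : ℕ → F) : Prop :=
  ∃ (e1 e2 e3 lam : F) (s : ℕ → F), E = crv e1 e2 e3 ∧ e1 ≠ e2 ∧ e1 ≠ e3 ∧ e2 ≠ e3 ∧
    lam * (e1 - e2) = e1 - e3 ∧ Chain lam s ∧ (∀ n, Inf 0 (-1) (-s n ^ 2) (1 / 512)) ∧
    (∀ n, X n = -e1 + (e1 - e2) * rho s (n + 1) (1 / 512)) ∧
    ∀ L : IntermediateField ℚ F, NumberField L → e1 ∈ L → e2 ∈ L → e3 ∈ L →
      ∃ (n : ℕ) (σ : F →+* F), (∀ x ∈ L, σ x = x) ∧ ∃ c d, Pack e1 e2 e3 (X n) (σ (X n)) c d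

omit [CharZero F] [IsAlgClosed F] [Algebra.IsAlgebraic ℚ F] in
lemma cubic_affine {e1 e2 e3 lam : F} (hl : lam * (e1 - e2) = e1 - e3) (x : F) :
    cubic (crv e1 e2 e3) (-e1 + (e1 - e2) * x) =
      (e1 - e2) ^ 3 * cubic (crv 0 (-1) (-lam)) x := by
  rw [cubic_crv, cubic_crv]
  have h3 : e3 = e1 - lam * (e1 - e2) := by rw [hl]; ring
  rw [h3]
  ring

theorem gen_orth {E E' : WeierstrassCurve F} {X X' : ℕ → F} (h : Gen E X) (h' : Gen E' X')
    (m n : ℕ) {w : F} (hw : w ^ 2 = cubic E (X m) * cubic E' (X' n)) :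
    dl (X m) (X' n) w ∈ Rat E E' := by
  obtain ⟨a1, a2, a3, l, s, rfl, ha12, ha13, ha23, hl, hc, hI, hX, -⟩ := h
  obtain ⟨b1, b2, b3, l', s', rfl, hb12, hb13, hb23, hl', hc', hI', hX', -⟩ := h'
  have h1 := conn_base (μ := s m ^ 2) (μ' := s' n ^ 2) (t := 1 / 512) (hc'.h2 n)
    (sub_ne_zero.mp (leg_ne ((hI' n).1 0)).2.2)
  have h2 := conn_swap (conn_rho hc (m + 1) (hI m) h1)
  have h3 := conn_swap (conn_rho hc' (n + 1) (hI' n) h2)
  obtain ⟨c, hcc⟩ := IsAlgClosed.exists_pow_nat_eq ((a1 - a2) ^ 3) (by norm_num : 0 < 2)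
  obtain ⟨c', hcc'⟩ := IsAlgClosed.exists_pow_nat_eq ((b1 - b2) ^ 3) (by norm_num : 0 < 2)
  have h4 := conn_swap (conn_affine hcc (cubic_affine hl) h3)
  have h5 := conn_swap (conn_affine hcc' (cubic_affine hl') h4)
  rw [← hX, ← hX'] at h5
  exact conn_mem h5 hw

theorem exists_gen (E : WeierstrassCurve F) (hE : E.IsElliptic) (h1 : E.a₁ = 0) (h3 : E.a₃ = 0) :
    ∃ X : ℕ → F, Gen E X := by
  obtain ⟨v, hv, hv2⟩ := exists_val F
  have ι : F →+* ℂ := (IsAlgClosed.lift : F →ₐ[ℚ] ℂ)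
  obtain ⟨e1, e2, e3, rfl⟩ := exists_crv E h1 h3
  obtain ⟨h12, h13, h23⟩ := crv_ne hE
  have main : ∀ e2 e3 : F, e1 ≠ e2 → e1 ≠ e3 → e2 ≠ e3 → v (e1 - e2) ≤ v (e1 - e3) →
      ∃ X : ℕ → F, Gen (crv e1 e2 e3) X := by
    intro e2 e3 h12 h13 h23 hle
    have d12 : e1 - e2 ≠ 0 := sub_ne_zero.mpr h12
    have d13 : e1 - e3 ≠ 0 := sub_ne_zero.mpr h13
    set lam : F := (e1 - e3) / (e1 - e2) with hlam
    have hl : lam * (e1 - e2) = e1 - e3 := by rw [hlam, div_mul_cancel₀ _ d12]
    have hl0 : lam ≠ 0 := div_ne_zero d13 d12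
    have hl1 : lam ≠ 1 := by
      intro h
      rw [h, one_mul] at hl
      apply h23
      linear_combination -hl
    have hvl : 1 / 16 ≤ v lam := by
      rw [hlam, map_div₀]
      have : 1 ≤ v (e1 - e3) / v (e1 - e2) := by
        rw [le_div_iff₀ (v.pos d12), one_mul]
        exact hle
      linarith
    obtain ⟨s, hc, ha, hva⟩ := exists_chain ι hv hv2 hl0 hl1 hvl
    refine ⟨fun n => -e1 + (e1 - e2) * rho s (n + 1) (1 / 512), e1, e2, e3, lam, s, rfl, h12, h13,
      h23, hl, hc, fun n => ?_, fun n => rfl, fun L hL he1 he2 he3 => ?_⟩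
    · obtain ⟨c, d, hp⟩ := pack_base hv hv2 (hc.h2 n) (hva n).1 (hva n).2
      exact hp.h1
    · obtain ⟨n, σ, hσ, c, d, hp⟩ := chain_conj ι hv hv2 hc ha hva L hL
        (L.div_mem (L.sub_mem he1 he3) (L.sub_mem he1 he2))
      refine ⟨n, σ, hσ, -e1 + (e1 - e2) * c, -e1 + (e1 - e2) * d, ?_⟩
      have h5 : σ (-e1 + (e1 - e2) * rho s (n + 1) (1 / 512)) =
          -e1 + (e1 - e2) * σ (rho s (n + 1) (1 / 512)) := by
        rw [map_add, map_neg, map_mul, map_sub, hσ e1 he1, hσ e2 he2]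
      rw [h5]
      exact pack_affine (e1 := 0) (e2 := -1) (e3 := -lam) (r := -e1) (u := e1 - e2) d12 (by ring)
        (by ring) (by linear_combination hl) hp
  rcases le_total (v (e1 - e2)) (v (e1 - e3)) with h | h
  · exact main e2 e3 h12 h13 h23 h
  · have he : crv e1 e3 e2 = crv e1 e2 e3 := by
      ext <;> simp only [crv] <;> ring
    rw [← he]
    exact main e3 e2 h13 h12 h23.symm h

variable [DecidableEq F]

/-- the points with `x`-coordinates in the sequence `X` -/
def ptsOf (E : WeierstrassCurve F) (X : ℕ → F) : Set E.toAffine.Point :=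
  {P | ∃ (n : ℕ) (y : F) (h : E.toAffine.Nonsingular (X n) y), P = .some (X n) y h}

/-- The group `W_E`. -/
noncomputable def W (E : WeierstrassCurve F) : AddSubgroup E.toAffine.Point :=
  open Classical in
  if h : ∃ X : ℕ → F, Gen E X then AddSubgroup.closure (ptsOf E h.choose) else ⊥

lemma W_spec {E : WeierstrassCurve F} (hE : E.IsElliptic) (h1 : E.a₁ = 0) (h3 : E.a₃ = 0) :
    ∃ X : ℕ → F, Gen E X ∧ W E = AddSubgroup.closure (ptsOf E X) := by
  have h := exists_gen E hE h1 h3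
  refine ⟨h.choose, h.choose_spec, ?_⟩
  rw [W, dif_pos h]

theorem W_rank {E : WeierstrassCurve F} (hE : E.IsElliptic) (h1 : E.a₁ = 0) (h3 : E.a₃ = 0) (m : ℕ) :
    ∃ v : Fin m → E.toAffine.Point, (∀ i, v i ∈ W E) ∧ LinearIndependent ℤ v := by
  obtain ⟨X, hX, hW⟩ := W_spec hE h1 h3
  rw [hW]
  obtain ⟨e1, e2, e3, lam, s, rfl, h12, h13, h23, -, -, -, -, hL⟩ := hX
  refine inf_rank h12 h13 h23 X hL _ (fun n y h => ?_) m
  exact AddSubgroup.subset_closure ⟨n, y, h, rfl⟩

theorem W_orth {E E' : WeierstrassCurve F} (hE : E.IsElliptic) (h1 : E.a₁ = 0) (h3 : E.a₃ = 0)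
    (hE' : E'.IsElliptic) (h1' : E'.a₁ = 0) (h3' : E'.a₃ = 0) {P : E.toAffine.Point}
    {Q : E'.toAffine.Point} (hP : P ∈ W E) (hQ : Q ∈ W E') : cyc P Q ∈ Rat E E' := by
  obtain ⟨X, hX, hW⟩ := W_spec hE h1 h3
  obtain ⟨X', hX', hW'⟩ := W_spec hE' h1' h3'
  rw [hW] at hP
  rw [hW'] at hQ
  have key := fun m n w hw => gen_orth (w := w) hX hX' m n hw
  obtain ⟨a1, a2, a3, -, -, rfl, -⟩ := hX
  obtain ⟨b1, b2, b3, -, -, rfl, -⟩ := hX'
  have e1 : ∀ P ∈ ptsOf (crv a1 a2 a3) X, ∀ Q ∈ ptsOf (crv b1 b2 b3) X',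
      phi a1 a2 a3 b1 b2 b3 P Q = 0 := by
    rintro _ ⟨m, y, h, rfl⟩ _ ⟨n, y', h', rfl⟩
    rw [phi_apply, QuotientAddGroup.eq_zero_iff, cyc_some]
    apply key
    rw [cubic_crv, cubic_crv, ← crv_eqn.mp h.1, ← crv_eqn.mp h'.1]
    ring
  have e2 : ∀ Q ∈ ptsOf (crv b1 b2 b3) X', phi a1 a2 a3 b1 b2 b3 P Q = 0 := by
    intro Q hQ'
    have : AddSubgroup.closure (ptsOf (crv a1 a2 a3) X) ≤ ((phi a1 a2 a3 b1 b2 b3).flip Q).ker := by
      rw [AddSubgroup.closure_le]
      intro P hP'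
      rw [SetLike.mem_coe, AddMonoidHom.mem_ker, AddMonoidHom.flip_apply]
      exact e1 P hP' Q hQ'
    have h2 := this hP
    rw [AddMonoidHom.mem_ker, AddMonoidHom.flip_apply] at h2
    exact h2
  have e3 : AddSubgroup.closure (ptsOf (crv b1 b2 b3) X') ≤ (phi a1 a2 a3 b1 b2 b3 P).ker := by
    rw [AddSubgroup.closure_le]
    intro Q hQ'
    rw [SetLike.mem_coe, AddMonoidHom.mem_ker]
    exact e2 Q hQ'
  have h2 := e3 hQ
  rw [AddMonoidHom.mem_ker, phi_apply, QuotientAddGroup.eq_zero_iff] at h2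
  exact h2

end main

/-- **There are subgroups `W E` of infinite rank of all elliptic curves `E` over `F` such that all
pairs of points of `W E` and `W E'` have the same class on the Kummer surface.** -/
theorem result (F : Type) [Field F] [CharZero F] [IsAlgClosed F] [Algebra.IsAlgebraic ℚ F]
    [DecidableEq F] :
    ∃ W : (E : WeierstrassCurve F) → AddSubgroup E.toAffine.Point,
      -- (1) the groups have infinite rank
      (∀ E : WeierstrassCurve F, E.IsElliptic → E.a₁ = 0 → E.a₃ = 0 → ∀ n : ℕ,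
        ∃ v : Fin n → E.toAffine.Point, (∀ i, v i ∈ W E) ∧ LinearIndependent ℤ v) ∧
      ∀ E E' : WeierstrassCurve F, E.IsElliptic → E.a₁ = 0 → E.a₃ = 0 →
        E'.IsElliptic → E'.a₁ = 0 → E'.a₃ = 0 →
        -- (2) they are orthogonal
        (∀ (x y x' y' : F) (h : E.toAffine.Nonsingular x y) (h' : E'.toAffine.Nonsingular x' y'),
          Affine.Point.some x y h ∈ W E → Affine.Point.some x' y' h' ∈ W E' →
          dl x x' (y * y') ∈ Rat E E') ∧
        -- (3) any two points of the Kummer surface in the image of `W E × W E'` are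
        -- rationally equivalent, up to torsion
        ∀ (x y x' y' u z u' z' : F) (h : E.toAffine.Nonsingular x y)
          (h' : E'.toAffine.Nonsingular x' y') (k : E.toAffine.Nonsingular u z)
          (k' : E'.toAffine.Nonsingular u' z'),
          Affine.Point.some x y h ∈ W E → Affine.Point.some x' y' h' ∈ W E' →
          Affine.Point.some u z k ∈ W E → Affine.Point.some u' z' k' ∈ W E' →
          2 • (pt x x' (y * y') - pt u u' (z * z')) ∈ Rat E E' := by
  refine ⟨W, fun E hE h1 h3 n => W_rank hE h1 h3 n, fun E E' hE h1 h3 hE' h1' h3' => ?_⟩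
  have key : ∀ (x y x' y' : F) (h : E.toAffine.Nonsingular x y)
      (h' : E'.toAffine.Nonsingular x' y'), Affine.Point.some x y h ∈ W E →
      Affine.Point.some x' y' h' ∈ W E' → dl x x' (y * y') ∈ Rat E E' := by
    intro x y x' y' h h' hP hQ
    exact W_orth hE h1 h3 hE' h1' h3' hP hQ
  refine ⟨key, fun x y x' y' u z u' z' h h' k k' hP hQ hP' hQ' => ?_⟩
  obtain ⟨a1, a2, a3, rfl⟩ := exists_crv E h1 h3
  obtain ⟨b1, b2, b3, rfl⟩ := exists_crv E' h1' h3'
  have hs : OnSurface (crv a1 a2 a3) (crv b1 b2 b3) (x, x', y * y') := by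
    change (y * y') ^ 2 = cubic (crv a1 a2 a3) x * cubic (crv b1 b2 b3) x'
    rw [cubic_crv, cubic_crv, ← crv_eqn.mp h.1, ← crv_eqn.mp h'.1]
    ring
  have hs' : OnSurface (crv a1 a2 a3) (crv b1 b2 b3) (u, u', z * z') := by
    change (z * z') ^ 2 = cubic (crv a1 a2 a3) u * cubic (crv b1 b2 b3) u'
    rw [cubic_crv, cubic_crv, ← crv_eqn.mp k.1, ← crv_eqn.mp k'.1]
    ring
  have hf : pt x x' (y * y') + pt x x' (-(y * y')) - pt u u' (z * z') - pt u u' (-(z * z')) ∈
      Rat (crv a1 a2 a3) (crv b1 b2 b3) :=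
    AddSubgroup.subset_closure (Or.inr ⟨_, _, _, _, _, _, hs, hs', rfl⟩)
  have h4 := add_mem hf (sub_mem (key x y x' y' h h' hP hQ) (key u z u' z' k k' hP' hQ'))
  have h5 : 2 • (pt x x' (y * y') - pt u u' (z * z')) =
      pt x x' (y * y') + pt x x' (-(y * y')) - pt u u' (z * z') - pt u u' (-(z * z')) +
        (dl x x' (y * y') - dl u u' (z * z')) := by
    unfold dl
    module
  rw [h5]
  exact h4

end Pool.Agent.Results.MP_9207e0_ag.OrthogonalSubgroups
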